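import Pool.Agent.H22.Gen2

namespace Pool.Agent.Results.MP_5603dc_lc.Most

open Pool.Agent.H22.CT

/-- `H`-Free Contraction is W[2]-hard for every graph `H` that is not complete, not a cone over a
disconnected graph (with at most two universal vertices) and not a broom. -/
theorem result {m : ℕ} (H : SimpleGraph (Fin m)) (hn : H ≠ ⊤) (hc : ¬ Cone H) (hb : ¬ Broom H) :
    W2Hard (Con₁ H) := hard_gen hn hc hb

end Pool.Agent.Results.MP_5603dc_lc.Most
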